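import Pool.Agent.Helper12.VW.Defs
import Pool.Agent.Helper87.Camp.Sum

/-!
VW-S1, S2, S3: elementary sums.
-/

set_option autoImplicit false

namespace Pool.Agent.Helper12.VW

open Finset Pool.Agent.Helper10

lemma s_two_pow_omega_le (D : ℕ) (hD : D ≠ 0) : 2 ^ D.primeFactors.card ≤ tau D := by
  unfold tau
  rw [Nat.card_divisors hD, ← Finset.prod_const]
  apply Finset.prod_le_prod'
  intro p hp
  have hp1 := Nat.prime_of_mem_primeFactors hp
  have hp2 := Nat.dvd_of_mem_primeFactors hp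
  have := hp1.factorization_pos_of_dvd hD hp2
  omega

/-- VW-S1 -/
theorem pow_omega_le (B ε : ℝ) (hB : 1 ≤ B) (hε : 0 < ε) : ∃ C : ℝ, 1 ≤ C ∧
    ∀ D : ℕ, D ≠ 0 → B ^ D.primeFactors.card ≤ C * (D : ℝ) ^ ε ∧
      B ^ D.primeFactors.card * (D.divisors.card : ℝ) ≤ C * (D : ℝ) ^ ε := by
  obtain ⟨k, hk⟩ : ∃ k : ℕ, B ≤ 2 ^ k := by
    obtain ⟨k, hk⟩ := pow_unbounded_of_one_lt B (by norm_num : (1 : ℝ) < 2)
    exact ⟨k, hk.le⟩
  have hk1 : (0 : ℝ) < (k : ℝ) + 1 := by positivity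
  obtain ⟨C, hC1, hC⟩ := Pool.Agent.Helper87.Camp.tau_rpow (ε / ((k : ℝ) + 1)) (by positivity)
  refine ⟨C ^ (k + 1), one_le_pow₀ hC1, fun D hD => ?_⟩
  have hτ1 : (1 : ℝ) ≤ (tau D : ℝ) := by exact_mod_cast tau_pos D hD
  have h1 : B ^ D.primeFactors.card ≤ (tau D : ℝ) ^ k := by
    calc B ^ D.primeFactors.card ≤ ((2 : ℝ) ^ k) ^ D.primeFactors.card :=
          pow_le_pow_left₀ (by linarith) hk _
      _ = ((2 : ℝ) ^ D.primeFactors.card) ^ k := by rw [← pow_mul, ← pow_mul, mul_comm]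
      _ ≤ (tau D : ℝ) ^ k := by
          apply pow_le_pow_left₀ (by positivity)
          exact_mod_cast s_two_pow_omega_le D hD
  have h2 : B ^ D.primeFactors.card * (D.divisors.card : ℝ) ≤ (tau D : ℝ) ^ (k + 1) := by
    rw [pow_succ]
    exact mul_le_mul_of_nonneg_right h1 (Nat.cast_nonneg _)
  have h3 : (tau D : ℝ) ^ (k + 1) ≤ C ^ (k + 1) * (D : ℝ) ^ ε := by
    calc (tau D : ℝ) ^ (k + 1) ≤ (C * (D : ℝ) ^ (ε / ((k : ℝ) + 1))) ^ (k + 1) :=
          pow_le_pow_left₀ (Nat.cast_nonneg _) (hC D hD) _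
      _ = C ^ (k + 1) * (D : ℝ) ^ ε := by
          rw [mul_pow, ← Real.rpow_natCast ((D : ℝ) ^ (ε / ((k : ℝ) + 1))),
            ← Real.rpow_mul (Nat.cast_nonneg _)]
          congr 2
          push_cast
          field_simp
  have h4 : B ^ D.primeFactors.card ≤ B ^ D.primeFactors.card * (D.divisors.card : ℝ) := by
    apply le_mul_of_one_le_right (pow_nonneg (by linarith) _)
    exact hτ1
  exact ⟨(h4.trans h2).trans h3, h2.trans h3⟩

lemma s_squarefull (D : ℕ) (hD : D ≠ 0) (h : ∀ p ∈ D.primeFactors, 2 ≤ D.factorization p) :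
    ∃ a b : ℕ, 0 < a ∧ 0 < b ∧ D = a ^ 2 * b ^ 3 := by
  obtain ⟨s, c, hcs, hs⟩ := Nat.sq_mul_squarefree D
  have hc0 : c ≠ 0 := by
    rintro rfl
    rw [zero_pow two_ne_zero, zero_mul] at hcs
    exact hD hcs.symm
  have hs0 : s ≠ 0 := hs.ne_zero
  have hdvd : s ∣ c := by
    rw [UniqueFactorizationMonoid.dvd_iff_normalizedFactors_le_normalizedFactors hs0 hc0,
      Multiset.le_iff_subset]
    · intro p hp
      have hpp : p.Prime := (UniqueFactorizationMonoid.prime_of_normalized_factor p hp).nat_prime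
      have hps : p ∣ s := UniqueFactorizationMonoid.dvd_of_mem_normalizedFactors hp
      have hpc : p ∣ c := by
        by_contra hpc
        have h1 := h p (Nat.mem_primeFactors.mpr ⟨hpp, by
          rw [← hcs]; exact hps.mul_left _, hD⟩)
        have h2 : p ^ 2 ∣ c ^ 2 * s := by
          rw [hcs]
          exact (hpp.pow_dvd_iff_le_factorization hD).mpr h1
        have h3 : Nat.Coprime (p ^ 2) (c ^ 2) :=
          ((Nat.Prime.coprime_iff_not_dvd hpp).mpr hpc).pow 2 2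
        have h4 : p ^ 2 ∣ s := h3.dvd_of_dvd_mul_left h2
        have h5 : p * p ∣ s := by rwa [sq] at h4
        exact hpp.prime.not_unit (hs p h5)
      exact Multiset.mem_of_le le_rfl ((UniqueFactorizationMonoid.mem_normalizedFactors_iff' hc0).mpr
        ⟨hpp.prime.irreducible, by simp, hpc⟩)
    · exact (UniqueFactorizationMonoid.squarefree_iff_nodup_normalizedFactors hs0).mp hs
  obtain ⟨a, rfl⟩ := hdvd
  refine ⟨a, s, ?_, Nat.pos_of_ne_zero hs0, ?_⟩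
  · rcases Nat.eq_zero_or_pos a with h0 | h0
    · rw [h0, mul_zero] at hc0; exact absurd rfl hc0
    · exact h0
  · rw [← hcs]; ring

lemma s_tsum_bound (s : ℝ) (hs : 1 < s) : ∃ K : ℝ, 0 < K ∧ ∀ T : Finset ℕ,
    ∑ D ∈ T, (D : ℝ) ^ (-s) ≤ K := by
  have hsum : Summable (fun n : ℕ => (n : ℝ) ^ (-s)) := Real.summable_nat_rpow.mpr (by linarith)
  have h0 : 0 ≤ ∑' n : ℕ, (n : ℝ) ^ (-s) :=
    tsum_nonneg (fun n : ℕ => Real.rpow_nonneg (Nat.cast_nonneg n) (-s))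
  refine ⟨(∑' n : ℕ, (n : ℝ) ^ (-s)) + 1, ?_, fun T => ?_⟩
  · linarith
  · have := hsum.sum_le_tsum T (fun n _ => Real.rpow_nonneg (Nat.cast_nonneg n) (-s))
    linarith

/-- VW-S2: squarefull numbers. -/
theorem sum_squarefull (B ε : ℝ) (hB : 1 ≤ B) (hε : 0 < ε) : ∃ C : ℝ, 0 < C ∧
    ∀ (X : ℝ) (T : Finset ℕ), 1 ≤ X →
      (∀ D ∈ T, X ≤ D ∧ ∀ p ∈ D.primeFactors, 2 ≤ D.factorization p) →
      ∑ D ∈ T, B ^ D.primeFactors.card / (D : ℝ) ≤ C * X ^ (-(1 / 2) + ε : ℝ) := by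
  classical
  set δ : ℝ := min (ε / 2) (1 / 8) with hδ
  have hδ0 : 0 < δ := lt_min (by positivity) (by norm_num)
  have hδε : 2 * δ ≤ ε := by
    have := min_le_left (ε / 2) (1 / 8 : ℝ)
    linarith
  have hδ8 : δ ≤ 1 / 8 := min_le_right _ _
  obtain ⟨C1, hC1, hC⟩ := pow_omega_le B δ hB hδ0
  obtain ⟨K1, hK1, hb1⟩ := s_tsum_bound (1 + 2 * δ) (by linarith)
  obtain ⟨K2, hK2, hb2⟩ := s_tsum_bound (3 / 2 + 3 * δ) (by linarith)
  refine ⟨C1 * (K1 * K2), by positivity, fun X T hX hT => ?_⟩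
  have hX0 : 0 < X := by linarith
  have hD0 : ∀ D ∈ T, D ≠ 0 := by
    intro D hD h0
    have := (hT D hD).1
    rw [h0, Nat.cast_zero] at this
    linarith
  have hex : ∀ D : ℕ, ∃ ab : ℕ × ℕ, D ∈ T → 0 < ab.1 ∧ 0 < ab.2 ∧ D = ab.1 ^ 2 * ab.2 ^ 3 := by
    intro D
    by_cases hD : D ∈ T
    · obtain ⟨a, b, ha, hb, hab⟩ := s_squarefull D (hD0 D hD) (hT D hD).2
      exact ⟨(a, b), fun _ => ⟨ha, hb, hab⟩⟩
    · exact ⟨(0, 0), fun h => absurd h hD⟩
  choose f hf using hex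
  have hstep : ∑ D ∈ T, (D : ℝ) ^ (-(1 / 2 + δ) : ℝ) ≤ K1 * K2 := by
    have hinj : Set.InjOn f (T : Set ℕ) := by
      intro D hD D' hD' h
      rw [(hf D (Finset.mem_coe.mp hD)).2.2, (hf D' (Finset.mem_coe.mp hD')).2.2, h]
    set A := (T.image f).image Prod.fst with hA
    set B' := (T.image f).image Prod.snd with hB'
    calc ∑ D ∈ T, (D : ℝ) ^ (-(1 / 2 + δ) : ℝ)
        = ∑ D ∈ T, ((f D).1 : ℝ) ^ (-(1 + 2 * δ)) * ((f D).2 : ℝ) ^ (-(3 / 2 + 3 * δ)) := by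
          apply Finset.sum_congr rfl
          intro D hD
          obtain ⟨ha, hb, hab⟩ := hf D hD
          have ha' : (0 : ℝ) < (f D).1 := by exact_mod_cast ha
          have hb' : (0 : ℝ) < (f D).2 := by exact_mod_cast hb
          have hDr : (D : ℝ) = ((f D).1 : ℝ) ^ 2 * ((f D).2 : ℝ) ^ 3 := by exact_mod_cast hab
          rw [hDr, Real.mul_rpow (by positivity) (by positivity), ← Real.rpow_natCast,
            ← Real.rpow_natCast, ← Real.rpow_mul ha'.le, ← Real.rpow_mul hb'.le]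
          congr 2
          · push_cast; ring
          · push_cast; ring
      _ = ∑ x ∈ T.image f, (x.1 : ℝ) ^ (-(1 + 2 * δ)) * (x.2 : ℝ) ^ (-(3 / 2 + 3 * δ)) := by
          rw [Finset.sum_image hinj]
      _ ≤ ∑ x ∈ A ×ˢ B', (x.1 : ℝ) ^ (-(1 + 2 * δ)) * (x.2 : ℝ) ^ (-(3 / 2 + 3 * δ)) := by
          apply Finset.sum_le_sum_of_subset_of_nonneg
          · intro x hx
            rw [Finset.mem_product]
            exact ⟨Finset.mem_image_of_mem _ hx, Finset.mem_image_of_mem _ hx⟩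
          · intro x _ _
            positivity
      _ = (∑ a ∈ A, (a : ℝ) ^ (-(1 + 2 * δ))) * ∑ b ∈ B', (b : ℝ) ^ (-(3 / 2 + 3 * δ)) := by
          rw [Finset.sum_mul_sum, ← Finset.sum_product']
      _ ≤ K1 * K2 := by
          apply mul_le_mul (hb1 A) (hb2 B') _ hK1.le
          exact Finset.sum_nonneg fun _ _ => Real.rpow_nonneg (Nat.cast_nonneg _) _
  calc ∑ D ∈ T, B ^ D.primeFactors.card / (D : ℝ)
      ≤ ∑ D ∈ T, C1 * X ^ (-(1 / 2) + ε : ℝ) * (D : ℝ) ^ (-(1 / 2 + δ) : ℝ) := by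
        apply Finset.sum_le_sum
        intro D hD
        have hXD := (hT D hD).1
        have hDpos : (0 : ℝ) < D := by linarith
        have h1 := (hC D (hD0 D hD)).1
        have h2 : (D : ℝ) ^ δ / D = (D : ℝ) ^ (-(1 / 2) + 2 * δ : ℝ) *
            (D : ℝ) ^ (-(1 / 2 + δ) : ℝ) := by
          rw [← Real.rpow_add hDpos]
          nth_rewrite 2 [← Real.rpow_one (D : ℝ)]
          rw [← Real.rpow_sub hDpos]
          congr 1
          ring
        have h3 : (D : ℝ) ^ (-(1 / 2) + 2 * δ : ℝ) ≤ X ^ (-(1 / 2) + ε : ℝ) := by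
          calc (D : ℝ) ^ (-(1 / 2) + 2 * δ : ℝ) ≤ X ^ (-(1 / 2) + 2 * δ : ℝ) :=
                Real.rpow_le_rpow_of_nonpos hX0 hXD (by linarith)
            _ ≤ X ^ (-(1 / 2) + ε : ℝ) :=
                Real.rpow_le_rpow_of_exponent_le hX (by linarith)
        calc B ^ D.primeFactors.card / (D : ℝ) ≤ C1 * (D : ℝ) ^ δ / D :=
              div_le_div_of_nonneg_right h1 hDpos.le
          _ = C1 * ((D : ℝ) ^ δ / D) := by ring
          _ = C1 * (D : ℝ) ^ (-(1 / 2) + 2 * δ : ℝ) * (D : ℝ) ^ (-(1 / 2 + δ) : ℝ) := by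
              rw [h2]; ring
          _ ≤ C1 * X ^ (-(1 / 2) + ε : ℝ) * (D : ℝ) ^ (-(1 / 2 + δ) : ℝ) := by
              apply mul_le_mul_of_nonneg_right _ (by positivity)
              exact mul_le_mul_of_nonneg_left h3 (by linarith)
    _ = C1 * X ^ (-(1 / 2) + ε : ℝ) * ∑ D ∈ T, (D : ℝ) ^ (-(1 / 2 + δ) : ℝ) := by
        rw [Finset.mul_sum]
    _ ≤ C1 * X ^ (-(1 / 2) + ε : ℝ) * (K1 * K2) :=
        mul_le_mul_of_nonneg_left hstep (by positivity)
    _ = C1 * (K1 * K2) * X ^ (-(1 / 2) + ε : ℝ) := by ring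

/-- VW-S3: powers. -/
theorem sum_powers (m : ℕ) (hm : 2 ≤ m) (B ε : ℝ) (hB : 1 ≤ B) (hε : 0 < ε) : ∃ C : ℝ, 0 < C ∧
    ∀ (Z : ℝ) (T : Finset ℕ), 1 ≤ Z → (∀ D ∈ T, Z ≤ D) →
      ∑ D ∈ T, B ^ D.primeFactors.card / (D : ℝ) ^ m ≤ C * Z ^ (1 - (m : ℝ) + ε) := by
  have hm2 : (2 : ℝ) ≤ m := by exact_mod_cast hm
  set δ : ℝ := min (ε / 2) (1 / 4) with hδ
  have hδ0 : 0 < δ := lt_min (by positivity) (by norm_num)
  have hδε : 2 * δ ≤ ε := by
    have := min_le_left (ε / 2) (1 / 4 : ℝ)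
    linarith
  have hδ4 : δ ≤ 1 / 4 := min_le_right _ _
  obtain ⟨C1, hC1, hC⟩ := pow_omega_le B δ hB hδ0
  obtain ⟨K1, hK1, hb1⟩ := s_tsum_bound (1 + δ) (by linarith)
  refine ⟨C1 * K1, by positivity, fun Z T hZ hT => ?_⟩
  have hZ0 : 0 < Z := by linarith
  calc ∑ D ∈ T, B ^ D.primeFactors.card / (D : ℝ) ^ m
      ≤ ∑ D ∈ T, C1 * Z ^ (1 - (m : ℝ) + ε) * (D : ℝ) ^ (-(1 + δ)) := by
        apply Finset.sum_le_sum
        intro D hD
        have hZD := hT D hD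
        have hDpos : (0 : ℝ) < D := by linarith
        have hD0 : D ≠ 0 := by
          intro h0
          rw [h0, Nat.cast_zero] at hDpos
          exact lt_irrefl _ hDpos
        have h1 := (hC D hD0).1
        have h2 : (D : ℝ) ^ δ / (D : ℝ) ^ m = (D : ℝ) ^ (1 - (m : ℝ) + 2 * δ) *
            (D : ℝ) ^ (-(1 + δ)) := by
          rw [← Real.rpow_add hDpos, ← Real.rpow_natCast, ← Real.rpow_sub hDpos]
          congr 1
          ring
        have h3 : (D : ℝ) ^ (1 - (m : ℝ) + 2 * δ) ≤ Z ^ (1 - (m : ℝ) + ε) := by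
          calc (D : ℝ) ^ (1 - (m : ℝ) + 2 * δ) ≤ Z ^ (1 - (m : ℝ) + 2 * δ) :=
                Real.rpow_le_rpow_of_nonpos hZ0 hZD (by linarith)
            _ ≤ Z ^ (1 - (m : ℝ) + ε) :=
                Real.rpow_le_rpow_of_exponent_le hZ (by linarith)
        calc B ^ D.primeFactors.card / (D : ℝ) ^ m ≤ C1 * (D : ℝ) ^ δ / (D : ℝ) ^ m :=
              div_le_div_of_nonneg_right h1 (by positivity)
          _ = C1 * ((D : ℝ) ^ δ / (D : ℝ) ^ m) := by ring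
          _ = C1 * (D : ℝ) ^ (1 - (m : ℝ) + 2 * δ) * (D : ℝ) ^ (-(1 + δ)) := by
              rw [h2]; ring
          _ ≤ C1 * Z ^ (1 - (m : ℝ) + ε) * (D : ℝ) ^ (-(1 + δ)) := by
              apply mul_le_mul_of_nonneg_right _ (by positivity)
              exact mul_le_mul_of_nonneg_left h3 (by linarith)
    _ = C1 * Z ^ (1 - (m : ℝ) + ε) * ∑ D ∈ T, (D : ℝ) ^ (-(1 + δ)) := by
        rw [Finset.mul_sum]
    _ ≤ C1 * Z ^ (1 - (m : ℝ) + ε) * K1 :=
        mul_le_mul_of_nonneg_left (hb1 T) (by positivity)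
    _ = C1 * K1 * Z ^ (1 - (m : ℝ) + ε) := by ring

end Pool.Agent.Helper12.VW
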