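import Pool.Agent.Helper87.VW.Cubic
import Pool.Agent.Helper87.Camp.Sum
import Pool.Agent.Helper12.VW.Defs

/-!
VW-N3: the number of cubic polynomials with square discriminant.
-/

set_option autoImplicit false

namespace Pool.Agent.Helper12.VW

open Finset Pool.Agent.Helper10 Pool.Agent.Helper87.Camp

open Classical in
/-- The vectors to be counted. -/
noncomputable def cGood (H : ℕ) : Finset (Fin 4 → ℤ) :=
  (Box 3 H).filter (fun a => a 3 ≠ 0 ∧ ∃ y : ℤ, y ≠ 0 ∧ y ^ 2 = cDisc a)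

open Classical in
/-- A square root of the discriminant. -/
noncomputable def cY (v : Fin 4 → ℤ) : ℤ :=
  if h : ∃ y : ℤ, y ≠ 0 ∧ y ^ 2 = cDisc v then h.choose else 0

lemma cGood_spec {H : ℕ} {v : Fin 4 → ℤ} (hv : v ∈ cGood H) :
    (∀ i, (v i).natAbs ≤ H) ∧ v 3 ≠ 0 ∧ cY v ≠ 0 ∧ cY v ^ 2 = cDisc v := by
  classical
  rw [cGood, Finset.mem_filter, Box, Fintype.mem_piFinset] at hv
  obtain ⟨h1, h2, h3⟩ := hv
  refine ⟨fun i => ?_, h2, ?_⟩
  · have := h1 i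
    rw [Finset.mem_Icc] at this
    omega
  · rw [cY, dif_pos h3]
    exact h3.choose_spec

lemma cGood_id {H : ℕ} {v : Fin 4 → ℤ} (hv : v ∈ cGood H) :
    cU v ^ 2 + 27 * (v 3 * cY v) ^ 2 = 4 * cP v ^ 3 := by
  obtain ⟨-, -, -, h⟩ := cGood_spec hv
  exact c_identity v (cY v) h

lemma cGood_P {H : ℕ} {v : Fin 4 → ℤ} (hv : v ∈ cGood H) :
    0 < cP v ∧ cP v ≤ 4 * (H : ℤ) ^ 2 := by
  obtain ⟨h1, h2, h3, h⟩ := cGood_spec hv
  exact ⟨c_P_pos v (cY v) h h3 h2, c_P_le H v h1⟩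

/-- Representations of `4 P ^ 3`. -/
lemma c_reps (H K3 : ℕ) (h3 : ∀ t : ℕ, t ≠ 0 → t ≤ 256 * H ^ 6 → tau t ≤ K3) (P : ℤ)
    (hP0 : 0 < P) (hP : P ≤ 4 * (H : ℤ) ^ 2) (F : Finset (ℤ × ℤ))
    (hF : ∀ p ∈ F, p.1 ^ 2 + 27 * p.2 ^ 2 = 4 * P ^ 3) : F.card ≤ 4 * K3 ^ 3 := by
  obtain ⟨p, rfl⟩ : ∃ p : ℕ, P = p := ⟨P.toNat, by omega⟩
  have hp0 : 0 < p := by exact_mod_cast hP0
  have hp : p ≤ 4 * H ^ 2 := by exact_mod_cast hP
  have h4 : 4 * p ^ 3 ≤ 256 * H ^ 6 := by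
    calc 4 * p ^ 3 ≤ 4 * (4 * H ^ 2) ^ 3 := Nat.mul_le_mul_left 4 (Nat.pow_le_pow_left hp 3)
      _ = 256 * H ^ 6 := by ring
  have h5 : tau (4 * p ^ 3) ≤ K3 := h3 _ (by positivity) h4
  calc F.card ≤ 4 * tau (4 * p ^ 3) ^ 3 := by
        apply r_int (4 * p ^ 3) (by positivity)
        intro x hx
        rw [hF x hx]
        push_cast
        rfl
    _ ≤ 4 * K3 ^ 3 := Nat.mul_le_mul_left 4 (Nat.pow_le_pow_left h5 3)

/-- Small leading coefficients. -/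
lemma c_partA (H K3 : ℕ) (h3 : ∀ t : ℕ, t ≠ 0 → t ≤ 256 * H ^ 6 → tau t ≤ K3) :
    ((cGood H).filter (fun v => (v 3).natAbs ^ 2 ≤ H)).card ≤
      (4 * K3 ^ 3) * ((2 * Nat.sqrt H + 1) * (2 * H + 1) ^ 2) := by
  classical
  set T := (cGood H).filter (fun v => (v 3).natAbs ^ 2 ≤ H) with hT
  set R := Nat.sqrt H with hR
  have hcard : ((Finset.Icc (-(R : ℤ)) R) ×ˢ ((Finset.Icc (-(H : ℤ)) H) ×ˢ
      (Finset.Icc (-(H : ℤ)) H))).card = (2 * R + 1) * (2 * H + 1) ^ 2 := by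
    rw [Finset.card_product, Finset.card_product, Int.card_Icc, Int.card_Icc]
    have e1 : ((R : ℤ) + 1 - -(R : ℤ)).toNat = 2 * R + 1 := by omega
    have e2 : ((H : ℤ) + 1 - -(H : ℤ)).toNat = 2 * H + 1 := by omega
    rw [e1, e2, sq]
  rw [← hcard]
  apply Finset.card_le_mul_card_image_of_maps_to
    (f := fun v : Fin 4 → ℤ => (v 3, v 2, v 1))
  · intro v hv
    rw [hT, Finset.mem_filter] at hv
    obtain ⟨h1, h2, -, -⟩ := cGood_spec hv.1
    have h4 : (v 3).natAbs ≤ R := by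
      rw [hR, Nat.le_sqrt']
      exact hv.2
    have h5 := h1 2
    have h6 := h1 1
    rw [Finset.mem_product, Finset.mem_product, Finset.mem_Icc, Finset.mem_Icc, Finset.mem_Icc]
    refine ⟨⟨?_, ?_⟩, ⟨?_, ?_⟩, ?_, ?_⟩ <;> simp only <;> omega
  · rintro ⟨a, b, c⟩ _
    set G := T.filter (fun v : Fin 4 → ℤ => (v 3, v 2, v 1) = (a, b, c)) with hG
    rcases G.eq_empty_or_nonempty with he | ⟨v0, hv0⟩
    · rw [he, Finset.card_empty]; exact Nat.zero_le _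
    have key : ∀ v ∈ G, v ∈ cGood H ∧ v 3 = a ∧ v 2 = b ∧ v 1 = c := by
      intro v hv
      rw [hG, Finset.mem_filter, hT, Finset.mem_filter] at hv
      have e := hv.2
      rw [Prod.mk.injEq, Prod.mk.injEq] at e
      exact ⟨hv.1.1, e.1, e.2.1, e.2.2⟩
    have hPeq : ∀ v ∈ G, cP v = b ^ 2 - 3 * a * c := by
      intro v hv
      obtain ⟨-, e1, e2, e3⟩ := key v hv
      rw [cP, e1, e2, e3]
    have ha : a ≠ 0 := by
      obtain ⟨g, e1, -⟩ := key v0 hv0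
      rw [← e1]
      exact (cGood_spec g).2.1
    have hinj : Set.InjOn (fun v : Fin 4 → ℤ => (cU v, v 3 * cY v)) (G : Set (Fin 4 → ℤ)) := by
      intro v hv w hw hvw
      obtain ⟨-, e1, e2, e3⟩ := key v (Finset.mem_coe.mp hv)
      obtain ⟨-, f1, f2, f3⟩ := key w (Finset.mem_coe.mp hw)
      have hU : cU v = cU w := congrArg Prod.fst hvw
      rw [cU, cU, e1, e2, e3, f1, f2, f3] at hU
      have h7 : 27 * a ^ 2 * v 0 = 27 * a ^ 2 * w 0 := by linarith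
      have h8 : v 0 = w 0 := mul_left_cancel₀ (by positivity) h7
      funext i
      fin_cases i
      · exact h8
      · change v 1 = w 1
        rw [e3, f3]
      · change v 2 = w 2
        rw [e2, f2]
      · change v 3 = w 3
        rw [e1, f1]
    rw [← Finset.card_image_of_injOn hinj]
    have hP0 := cGood_P (key v0 hv0).1
    rw [hPeq v0 hv0] at hP0
    apply c_reps H K3 h3 (b ^ 2 - 3 * a * c) hP0.1 hP0.2
    intro x hx
    rw [Finset.mem_image] at hx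
    obtain ⟨v, hv, rfl⟩ := hx
    rw [← hPeq v hv]
    exact cGood_id (key v hv).1

/-- Large leading coefficients. -/
lemma c_partB (H K1 K2 K3 Kb : ℕ)
    (h1 : ∀ t : ℕ, t ≠ 0 → t ≤ 4 * H ^ 2 → tau t ≤ K1)
    (h2 : ∀ t : ℕ, t ≠ 0 → t ≤ 16 * H ^ 3 → tau t ≤ K2)
    (h3 : ∀ t : ℕ, t ≠ 0 → t ≤ 256 * H ^ 6 → tau t ≤ K3)
    (hb : ∀ a f : ℕ, H < a ^ 2 → f ^ 2 ≤ 2 * (4 * H + 1) + (2 * (4 * H ^ 2 / a) + 1) * (2 * K1) →
      f ≤ Kb) :
    ((cGood H).filter (fun v => ¬ (v 3).natAbs ^ 2 ≤ H)).card ≤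
      Kb * ((2 * K2) * ((4 * K3 ^ 3) * (4 * H ^ 2))) := by
  classical
  set T := (cGood H).filter (fun v => ¬ (v 3).natAbs ^ 2 ≤ H) with hT
  have hTg : ∀ v ∈ T, v ∈ cGood H ∧ H < (v 3).natAbs ^ 2 := by
    intro v hv
    rw [hT, Finset.mem_filter] at hv
    exact ⟨hv.1, by omega⟩
  -- first step
  have s1 : T.card ≤ Kb * (T.image (fun v => ((cP v, cU v, v 3 * cY v), v 3))).card := by
    apply Finset.card_le_mul_card_image
    rintro ⟨⟨P, U, V⟩, a⟩ ho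
    set G := T.filter (fun v => ((cP v, cU v, v 3 * cY v), v 3) = ((P, U, V), a)) with hG
    have key : ∀ v ∈ G, v ∈ cGood H ∧ H < (v 3).natAbs ^ 2 ∧ cP v = P ∧ cU v = U ∧ v 3 = a := by
      intro v hv
      rw [hG, Finset.mem_filter] at hv
      have e := hv.2
      rw [Prod.mk.injEq, Prod.mk.injEq, Prod.mk.injEq] at e
      exact ⟨(hTg v hv.1).1, (hTg v hv.1).2, e.1.1, e.1.2.1, e.2⟩
    rcases G.eq_empty_or_nonempty with he | ⟨v0, hv0⟩
    · rw [he, Finset.card_empty]; exact Nat.zero_le _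
    obtain ⟨g0, g1, -, -, g4⟩ := key v0 hv0
    have ha : a ≠ 0 := by
      rw [← g4]
      exact (cGood_spec g0).2.1
    have hinj : Set.InjOn (fun v : Fin 4 → ℤ => v 2) (G : Set (Fin 4 → ℤ)) := by
      intro v hv w hw hvw
      obtain ⟨-, -, e1, e2, e3⟩ := key v (Finset.mem_coe.mp hv)
      obtain ⟨-, -, f1, f2, f3⟩ := key w (Finset.mem_coe.mp hw)
      have h20 : v 2 = w 2 := hvw
      have hPP : cP v = cP w := by rw [e1, f1]
      have hUU : cU v = cU w := by rw [e2, f2]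
      rw [cP, cP, e3, f3, h20] at hPP
      have h4 : 3 * a * v 1 = 3 * a * w 1 := by linarith
      have h5 : v 1 = w 1 := mul_left_cancel₀ (by positivity) h4
      rw [cU, cU, e3, f3, h20, h5] at hUU
      have h7 : 27 * a ^ 2 * v 0 = 27 * a ^ 2 * w 0 := by linarith
      have h8 : v 0 = w 0 := mul_left_cancel₀ (by positivity) h7
      funext i
      fin_cases i
      · exact h8
      · exact h5
      · exact h20
      · change v 3 = w 3
        rw [e3, f3]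
    rw [← Finset.card_image_of_injOn hinj]
    apply hb a.natAbs _ (by rw [← g4]; exact g1)
    apply c_roots H a ha P K1 h1
    intro b hb'
    rw [Finset.mem_image] at hb'
    obtain ⟨v, hv, rfl⟩ := hb'
    obtain ⟨e0, -, e1, -, e3⟩ := key v hv
    refine ⟨(cGood_spec e0).1 2, ?_⟩
    rw [← e1, cP, ← e3]
    exact ⟨3 * v 1, by ring⟩
  -- second step
  have s2 : (T.image (fun v => ((cP v, cU v, v 3 * cY v), v 3))).card ≤
      (2 * K2) * (T.image (fun v => (cP v, cU v, v 3 * cY v))).card := by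
    apply Finset.card_le_mul_card_image_of_maps_to (f := Prod.fst)
    · intro x hx
      rw [Finset.mem_image] at hx
      obtain ⟨v, hv, rfl⟩ := hx
      exact Finset.mem_image_of_mem _ hv
    · rintro ⟨P, U, V⟩ hx
      rw [Finset.mem_image] at hx
      obtain ⟨v, hv, hvx⟩ := hx
      rw [Prod.mk.injEq, Prod.mk.injEq] at hvx
      obtain ⟨x1, x2, x3⟩ := hvx
      have hg := (hTg v hv).1
      have hV0 : V ≠ 0 := by
        rw [← x3]
        exact mul_ne_zero (cGood_spec hg).2.1 (cGood_spec hg).2.2.1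
      have hVle : V.natAbs ≤ 16 * H ^ 3 := by
        have e1 := cGood_id hg
        obtain ⟨e2, e3⟩ := cGood_P hg
        rw [x1, x2, x3] at e1
        rw [x1] at e2 e3
        have e4 : P ^ 3 ≤ (4 * (H : ℤ) ^ 2) ^ 3 := pow_le_pow_left₀ e2.le e3 3
        have e5 : V ^ 2 ≤ (16 * (H : ℤ) ^ 3) ^ 2 := by nlinarith [sq_nonneg U, sq_nonneg V]
        have e7 : |V| ≤ 16 * (H : ℤ) ^ 3 := abs_le_of_sq_le_sq e5 (by positivity)
        rw [Int.abs_eq_natAbs] at e7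
        exact_mod_cast e7
      have hτ := h2 V.natAbs (by omega) hVle
      have hinj : Set.InjOn Prod.snd ((T.image (fun v => ((cP v, cU v, v 3 * cY v), v 3))).filter
          (fun x => x.1 = (P, U, V)) : Set ((ℤ × ℤ × ℤ) × ℤ)) := by
        intro p hp q hq hpq
        rw [Finset.mem_coe, Finset.mem_filter] at hp hq
        exact Prod.ext (by rw [hp.2, hq.2]) hpq
      rw [← Finset.card_image_of_injOn hinj]
      calc (((T.image (fun v => ((cP v, cU v, v 3 * cY v), v 3))).filter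
            (fun x => x.1 = (P, U, V))).image Prod.snd).card
          ≤ ((V.natAbs.divisors.image (fun n : ℕ => (n : ℤ))) ∪
              (V.natAbs.divisors.image (fun n : ℕ => -(n : ℤ)))).card := by
            apply Finset.card_le_card
            intro a ha
            rw [Finset.mem_image] at ha
            obtain ⟨x, hx, rfl⟩ := ha
            rw [Finset.mem_filter, Finset.mem_image] at hx
            obtain ⟨⟨w, -, rfl⟩, hw⟩ := hx
            rw [Prod.mk.injEq, Prod.mk.injEq] at hw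
            obtain ⟨-, -, hw3⟩ := hw
            have hd : (w 3).natAbs ∣ V.natAbs := by
              rw [← hw3, Int.natAbs_mul]
              exact dvd_mul_right _ _
            have hd' : (w 3).natAbs ∈ V.natAbs.divisors :=
              Nat.mem_divisors.mpr ⟨hd, by omega⟩
            change w 3 ∈ _
            rw [Finset.mem_union, Finset.mem_image, Finset.mem_image]
            rcases Int.natAbs_eq (w 3) with e | e
            · exact Or.inl ⟨_, hd', e.symm⟩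
            · exact Or.inr ⟨_, hd', e.symm⟩
        _ ≤ tau V.natAbs + tau V.natAbs :=
            (Finset.card_union_le _ _).trans (Nat.add_le_add Finset.card_image_le
              Finset.card_image_le)
        _ ≤ 2 * K2 := by omega
  -- third step
  have hIcc : (Finset.Icc (1 : ℤ) (4 * (H : ℤ) ^ 2)).card = 4 * H ^ 2 := by
    rw [Int.card_Icc]
    have : (4 * (H : ℤ) ^ 2 + 1 - 1) = ((4 * H ^ 2 : ℕ) : ℤ) := by push_cast; ring
    rw [this, Int.toNat_natCast]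
  have s3 : (T.image (fun v => (cP v, cU v, v 3 * cY v))).card ≤
      (4 * K3 ^ 3) * (Finset.Icc (1 : ℤ) (4 * (H : ℤ) ^ 2)).card := by
    apply Finset.card_le_mul_card_image_of_maps_to (f := Prod.fst)
    · intro x hx
      rw [Finset.mem_image] at hx
      obtain ⟨v, hv, rfl⟩ := hx
      obtain ⟨e2, e3⟩ := cGood_P (hTg v hv).1
      rw [Finset.mem_Icc]
      exact ⟨e2, e3⟩
    · intro P hP
      rw [Finset.mem_Icc] at hP
      have hinj : Set.InjOn Prod.snd ((T.image (fun v => (cP v, cU v, v 3 * cY v))).filter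
          (fun x => x.1 = P) : Set (ℤ × ℤ × ℤ)) := by
        intro p hp q hq hpq
        rw [Finset.mem_coe, Finset.mem_filter] at hp hq
        exact Prod.ext (by rw [hp.2, hq.2]) hpq
      rw [← Finset.card_image_of_injOn hinj]
      apply c_reps H K3 h3 P (by omega) hP.2
      intro y hy
      rw [Finset.mem_image] at hy
      obtain ⟨x, hx, rfl⟩ := hy
      rw [Finset.mem_filter, Finset.mem_image] at hx
      obtain ⟨⟨w, hw, rfl⟩, hw1⟩ := hx
      have e1 := cGood_id (hTg w hw).1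
      have hw1' : cP w = P := hw1
      rw [← hw1']
      exact e1
  calc T.card ≤ Kb * (T.image (fun v => ((cP v, cU v, v 3 * cY v), v 3))).card := s1
    _ ≤ Kb * ((2 * K2) * (T.image (fun v => (cP v, cU v, v 3 * cY v))).card) :=
        Nat.mul_le_mul_left _ s2
    _ ≤ Kb * ((2 * K2) * ((4 * K3 ^ 3) * (Finset.Icc (1 : ℤ) (4 * (H : ℤ) ^ 2)).card)) :=
        Nat.mul_le_mul_left _ (Nat.mul_le_mul_left _ s3)
    _ = Kb * ((2 * K2) * ((4 * K3 ^ 3) * (4 * H ^ 2))) := by rw [hIcc]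

/-- VW-N3: cubic polynomials with square discriminant. -/
theorem cubic_count : ∃ C : ℝ, 0 < C ∧ ∀ H : ℕ, 1 ≤ H →
    ({a ∈ (Box 3 H : Set (Fin 4 → ℤ)) | a 3 ≠ 0 ∧ ∃ y : ℤ, y ≠ 0 ∧
      y ^ 2 = a 2 ^ 2 * a 1 ^ 2 - 4 * a 3 * a 1 ^ 3 - 4 * a 2 ^ 3 * a 0
      - 27 * a 3 ^ 2 * a 0 ^ 2 + 18 * a 3 * a 2 * a 1 * a 0}.ncard : ℝ) ≤ C * (H : ℝ) ^ 3 := by
  classical
  obtain ⟨C, hC1, hC⟩ := tau_rpow (1 / 100) (by norm_num)
  have hC0 : 0 < C := by linarith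
  -- constants: `K3 ≤ 256 C t ^ 6`, `K2 ≤ 16 C t ^ 3`, `K1 ≤ 4 C t ^ 2`, `Kb ≤ 10 C s ^ 3 t`
  refine ⟨4 * (256 * C) ^ 3 * 27 + 16 * C * (2 * (16 * C)) * (4 * (256 * C) ^ 3 * 4),
    by positivity, fun H hH => ?_⟩
  have hH1 : (1 : ℝ) ≤ H := by exact_mod_cast hH
  have hH0 : (0 : ℝ) < H := by linarith
  set t : ℝ := (H : ℝ) ^ (1 / 100 : ℝ) with ht
  have ht1 : 1 ≤ t := Real.one_le_rpow hH1 (by norm_num)
  have ht0 : 0 < t := by linarith
  have htH : t ^ 100 = H := by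
    rw [ht, ← Real.rpow_natCast, ← Real.rpow_mul hH0.le]
    norm_num
  have hbound : ∀ (c : ℝ) (k : ℕ) (n : ℕ), 1 ≤ c → n ≠ 0 → (n : ℝ) ≤ c * (H : ℝ) ^ k →
      (tau n : ℝ) ≤ c * C * t ^ k := by
    intro c k n hc hn hnk
    have hn0 : (0 : ℝ) ≤ n := by positivity
    calc (tau n : ℝ) ≤ C * (n : ℝ) ^ (1 / 100 : ℝ) := hC n hn
      _ ≤ C * (c * (H : ℝ) ^ k) ^ (1 / 100 : ℝ) :=
          mul_le_mul_of_nonneg_left (Real.rpow_le_rpow hn0 hnk (by norm_num)) hC0.le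
      _ = C * (c ^ (1 / 100 : ℝ) * t ^ k) := by
          rw [Real.mul_rpow (by linarith) (by positivity)]
          congr 2
          rw [ht, ← Real.rpow_natCast, ← Real.rpow_natCast, ← Real.rpow_mul hH0.le,
            ← Real.rpow_mul hH0.le, mul_comm]
      _ ≤ C * (c * t ^ k) := by
          apply mul_le_mul_of_nonneg_left _ hC0.le
          apply mul_le_mul_of_nonneg_right _ (by positivity)
          calc c ^ (1 / 100 : ℝ) ≤ c ^ (1 : ℝ) := Real.rpow_le_rpow_of_exponent_le hc (by norm_num)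
            _ = c := Real.rpow_one c
      _ = c * C * t ^ k := by ring
  set K1 : ℕ := ⌊4 * C * t ^ 2⌋₊ with hK1
  set K2 : ℕ := ⌊16 * C * t ^ 3⌋₊ with hK2
  set K3 : ℕ := ⌊256 * C * t ^ 6⌋₊ with hK3
  set Kb : ℕ := ⌊16 * C * (t ^ 75 * t)⌋₊ with hKb
  have f1 : (K1 : ℝ) ≤ 4 * C * t ^ 2 := Nat.floor_le (by positivity)
  have f2 : (K2 : ℝ) ≤ 16 * C * t ^ 3 := Nat.floor_le (by positivity)
  have f3 : (K3 : ℝ) ≤ 256 * C * t ^ 6 := Nat.floor_le (by positivity)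
  have fb : (Kb : ℝ) ≤ 16 * C * (t ^ 75 * t) := Nat.floor_le (by positivity)
  have h1 : ∀ n : ℕ, n ≠ 0 → n ≤ 4 * H ^ 2 → tau n ≤ K1 := by
    intro n hn hn2
    apply Nat.le_floor
    apply hbound 4 2 n (by norm_num) hn
    exact_mod_cast hn2
  have h2 : ∀ n : ℕ, n ≠ 0 → n ≤ 16 * H ^ 3 → tau n ≤ K2 := by
    intro n hn hn2
    apply Nat.le_floor
    apply hbound 16 3 n (by norm_num) hn
    exact_mod_cast hn2
  have h3 : ∀ n : ℕ, n ≠ 0 → n ≤ 256 * H ^ 6 → tau n ≤ K3 := by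
    intro n hn hn2
    apply Nat.le_floor
    apply hbound 256 6 n (by norm_num) hn
    exact_mod_cast hn2
  have hb : ∀ a f : ℕ, H < a ^ 2 →
      f ^ 2 ≤ 2 * (4 * H + 1) + (2 * (4 * H ^ 2 / a) + 1) * (2 * K1) → f ≤ Kb := by
    intro a f haH hf
    apply Nat.le_floor
    have haR : t ^ 50 < a := by
      have h4 : (H : ℝ) < (a : ℝ) ^ 2 := by exact_mod_cast haH
      have h5 : (t ^ 50) ^ 2 < (a : ℝ) ^ 2 := by
        calc (t ^ 50) ^ 2 = H := by rw [← htH]; ring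
          _ < (a : ℝ) ^ 2 := h4
      exact lt_of_pow_lt_pow_left₀ 2 (by positivity) h5
    have h4 : ((4 * H ^ 2 / a : ℕ) : ℝ) ≤ 4 * t ^ 150 := by
      calc ((4 * H ^ 2 / a : ℕ) : ℝ) ≤ ((4 * H ^ 2 : ℕ) : ℝ) / a := Nat.cast_div_le
        _ ≤ ((4 * H ^ 2 : ℕ) : ℝ) / t ^ 50 := by
            apply div_le_div_of_nonneg_left (by positivity) (by positivity) haR.le
        _ = 4 * t ^ 150 := by
            rw [div_eq_iff (by positivity)]
            push_cast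
            rw [← htH]
            ring
    have h5 : (f : ℝ) ^ 2 ≤ 2 * (4 * H + 1) + (2 * ((4 * H ^ 2 / a : ℕ) : ℝ) + 1) * (2 * K1) := by
      exact_mod_cast hf
    have h6 : (f : ℝ) ^ 2 ≤ (16 * C * (t ^ 75 * t)) ^ 2 := by
      have g1 : (H : ℝ) ≤ t ^ 152 := by
        rw [← htH]
        exact pow_le_pow_right₀ ht1 (by norm_num)
      have g2 : (1 : ℝ) ≤ t ^ 152 := one_le_pow₀ ht1
      have g3 : (1 : ℝ) ≤ t ^ 150 := one_le_pow₀ ht1
      have g4 : (1 : ℝ) ≤ C ^ 2 := one_le_pow₀ hC1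
      have g5 : C ≤ C ^ 2 := by nlinarith
      calc (f : ℝ) ^ 2 ≤ 2 * (4 * H + 1) +
            (2 * ((4 * H ^ 2 / a : ℕ) : ℝ) + 1) * (2 * K1) := h5
        _ ≤ 2 * (4 * t ^ 152 + t ^ 152) +
            (2 * (4 * t ^ 150) + t ^ 150) * (2 * (4 * C * t ^ 2)) := by gcongr
        _ = (10 + 72 * C) * t ^ 152 := by ring
        _ ≤ (256 * C ^ 2) * t ^ 152 := by
            apply mul_le_mul_of_nonneg_right _ (by positivity)
            linarith
        _ = (16 * C * (t ^ 75 * t)) ^ 2 := by ring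
    exact le_of_sq_le_sq h6 (by positivity)
  have hA := c_partA H K3 h3
  have hB := c_partB H K1 K2 K3 Kb h1 h2 h3 hb
  have hset : {a ∈ (Box 3 H : Set (Fin 4 → ℤ)) | a 3 ≠ 0 ∧ ∃ y : ℤ, y ≠ 0 ∧
      y ^ 2 = a 2 ^ 2 * a 1 ^ 2 - 4 * a 3 * a 1 ^ 3 - 4 * a 2 ^ 3 * a 0
      - 27 * a 3 ^ 2 * a 0 ^ 2 + 18 * a 3 * a 2 * a 1 * a 0} = (cGood H : Set (Fin 4 → ℤ)) := by
    ext v
    rw [cGood, Finset.coe_filter]
    rfl
  rw [hset, Set.ncard_coe_finset]
  have hsum := Finset.card_filter_add_card_filter_not (s := cGood H)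
    (fun v => (v 3).natAbs ^ 2 ≤ H)
  have hRA : (((cGood H).filter (fun v => (v 3).natAbs ^ 2 ≤ H)).card : ℝ) ≤
      4 * (256 * C) ^ 3 * 27 * (H : ℝ) ^ 3 := by
    have hR : ((Nat.sqrt H : ℕ) : ℝ) ≤ t ^ 50 := by
      have e1 : (Nat.sqrt H) ^ 2 ≤ H := Nat.sqrt_le' H
      have e2 : ((Nat.sqrt H : ℕ) : ℝ) ^ 2 ≤ (t ^ 50) ^ 2 := by
        calc ((Nat.sqrt H : ℕ) : ℝ) ^ 2 ≤ H := by exact_mod_cast e1
          _ = (t ^ 50) ^ 2 := by rw [← htH]; ring
      exact le_of_sq_le_sq e2 (by positivity)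
    have g1 : (1 : ℝ) ≤ t ^ 50 := one_le_pow₀ ht1
    calc (((cGood H).filter (fun v => (v 3).natAbs ^ 2 ≤ H)).card : ℝ)
        ≤ (((4 * K3 ^ 3) * ((2 * Nat.sqrt H + 1) * (2 * H + 1) ^ 2) : ℕ) : ℝ) := by
          exact_mod_cast hA
      _ = (4 * (K3 : ℝ) ^ 3) * ((2 * ((Nat.sqrt H : ℕ) : ℝ) + 1) * (2 * H + 1) ^ 2) := by
          push_cast; ring
      _ ≤ (4 * (256 * C * t ^ 6) ^ 3) * ((2 * t ^ 50 + t ^ 50) * (2 * H + H) ^ 2) := by gcongr
      _ = 4 * (256 * C) ^ 3 * 27 * (t ^ 68 * (H : ℝ) ^ 2) := by ring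
      _ ≤ 4 * (256 * C) ^ 3 * 27 * (t ^ 100 * (H : ℝ) ^ 2) := by
          gcongr
          norm_num
      _ = 4 * (256 * C) ^ 3 * 27 * (H : ℝ) ^ 3 := by rw [htH]; ring
  have hRB : (((cGood H).filter (fun v => ¬ (v 3).natAbs ^ 2 ≤ H)).card : ℝ) ≤
      16 * C * (2 * (16 * C)) * (4 * (256 * C) ^ 3 * 4) * (H : ℝ) ^ 3 := by
    calc (((cGood H).filter (fun v => ¬ (v 3).natAbs ^ 2 ≤ H)).card : ℝ)
        ≤ ((Kb * ((2 * K2) * ((4 * K3 ^ 3) * (4 * H ^ 2))) : ℕ) : ℝ) := by exact_mod_cast hB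
      _ = (Kb : ℝ) * ((2 * (K2 : ℝ)) * ((4 * (K3 : ℝ) ^ 3) * (4 * (H : ℝ) ^ 2))) := by
          push_cast; ring
      _ ≤ (16 * C * (t ^ 75 * t)) * ((2 * (16 * C * t ^ 3)) *
            ((4 * (256 * C * t ^ 6) ^ 3) * (4 * (H : ℝ) ^ 2))) := by gcongr
      _ = 16 * C * (2 * (16 * C)) * (4 * (256 * C) ^ 3 * 4) * (t ^ 97 * (H : ℝ) ^ 2) := by ring
      _ ≤ 16 * C * (2 * (16 * C)) * (4 * (256 * C) ^ 3 * 4) * (t ^ 100 * (H : ℝ) ^ 2) := by
          gcongr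
          norm_num
      _ = 16 * C * (2 * (16 * C)) * (4 * (256 * C) ^ 3 * 4) * (H : ℝ) ^ 3 := by rw [htH]; ring
  calc ((cGood H).card : ℝ) = (((cGood H).filter (fun v => (v 3).natAbs ^ 2 ≤ H)).card : ℝ) +
        (((cGood H).filter (fun v => ¬ (v 3).natAbs ^ 2 ≤ H)).card : ℝ) := by
        rw [← hsum]
        push_cast
        rfl
    _ ≤ 4 * (256 * C) ^ 3 * 27 * (H : ℝ) ^ 3 +
        16 * C * (2 * (16 * C)) * (4 * (256 * C) ^ 3 * 4) * (H : ℝ) ^ 3 := add_le_add hRA hRB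
    _ = (4 * (256 * C) ^ 3 * 27 + 16 * C * (2 * (16 * C)) * (4 * (256 * C) ^ 3 * 4)) *
        (H : ℝ) ^ 3 := by ring

end Pool.Agent.Helper12.VW
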