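import Pool.Agent.Helper87.VW.Reps
import Pool.Agent.Helper87.Camp.Power

/-!
VW-N3: cubic polynomials with square discriminant.
-/

set_option autoImplicit false

namespace Pool.Agent.Helper12.VW

open Finset Pool.Agent.Helper10 Pool.Agent.Helper87.Camp

/-- Pairs with product divisible by `a`. -/
lemma c_pairs (H : ℕ) (a : ℤ) (ha : a ≠ 0) (K : ℕ)
    (hK : ∀ t : ℕ, t ≠ 0 → t ≤ 4 * H ^ 2 → tau t ≤ K) (G : Finset (ℤ × ℤ))
    (hG : ∀ p ∈ G, p.1.natAbs ≤ 2 * H ∧ p.2.natAbs ≤ 2 * H ∧ a ∣ p.1 * p.2) :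
    G.card ≤ 2 * (4 * H + 1) + (2 * (4 * H ^ 2 / a.natAbs) + 1) * (2 * K) := by
  classical
  set G0 := G.filter (fun p => p.1 = 0) with hG0
  set G1 := G.filter (fun p => p.2 = 0) with hG1
  set G2 := G.filter (fun p => p.1 ≠ 0 ∧ p.2 ≠ 0) with hG2
  have hsub : G ⊆ (G0 ∪ G1) ∪ G2 := by
    intro p hp
    rw [Finset.mem_union, Finset.mem_union, hG0, hG1, hG2, Finset.mem_filter, Finset.mem_filter,
      Finset.mem_filter]
    by_cases h0 : p.1 = 0
    · exact Or.inl (Or.inl ⟨hp, h0⟩)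
    · by_cases h1 : p.2 = 0
      · exact Or.inl (Or.inr ⟨hp, h1⟩)
      · exact Or.inr ⟨hp, h0, h1⟩
  have hI : (Finset.Icc (-(2 * H : ℤ)) (2 * H)).card = 4 * H + 1 := by
    rw [Int.card_Icc]
    omega
  have h0 : G0.card ≤ 4 * H + 1 := by
    rw [← hI]
    apply Finset.card_le_card_of_injOn (f := Prod.snd)
    · intro p hp
      rw [Finset.mem_coe, hG0, Finset.mem_filter] at hp
      have := hG p hp.1
      rw [Finset.mem_coe, Finset.mem_Icc]
      omega
    · intro p hp q hq hpq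
      rw [Finset.mem_coe, hG0, Finset.mem_filter] at hp hq
      exact Prod.ext (by rw [hp.2, hq.2]) hpq
  have h1 : G1.card ≤ 4 * H + 1 := by
    rw [← hI]
    apply Finset.card_le_card_of_injOn (f := Prod.fst)
    · intro p hp
      rw [Finset.mem_coe, hG1, Finset.mem_filter] at hp
      have := hG p hp.1
      rw [Finset.mem_coe, Finset.mem_Icc]
      omega
    · intro p hp q hq hpq
      rw [Finset.mem_coe, hG1, Finset.mem_filter] at hp hq
      exact Prod.ext hpq (by rw [hp.2, hq.2])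
  set L := 4 * H ^ 2 / a.natAbs with hL
  have ha0 : 0 < a.natAbs := by omega
  have hprod : ∀ p ∈ G, (p.1 * p.2).natAbs ≤ 4 * H ^ 2 := by
    intro p hp
    obtain ⟨e1, e2, -⟩ := hG p hp
    rw [Int.natAbs_mul]
    calc p.1.natAbs * p.2.natAbs ≤ (2 * H) * (2 * H) := Nat.mul_le_mul e1 e2
      _ = 4 * H ^ 2 := by ring
  have h2 : G2.card ≤ (2 * K) * (Finset.Icc (-(L : ℤ)) L).card := by
    apply Finset.card_le_mul_card_image_of_maps_to (f := fun p : ℤ × ℤ => p.1 * p.2 / a)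
    · intro p hp
      rw [hG2, Finset.mem_filter] at hp
      obtain ⟨e1, e2, e3⟩ := hG p hp.1
      obtain ⟨k, hk⟩ := e3
      have hk' : p.1 * p.2 / a = k := by rw [hk, Int.mul_ediv_cancel_left _ ha]
      have h3 : a.natAbs * k.natAbs ≤ 4 * H ^ 2 := by
        rw [← Int.natAbs_mul, ← hk]
        exact hprod p hp.1
      have h4 : k.natAbs ≤ L := by
        rw [hL, Nat.le_div_iff_mul_le ha0, mul_comm]
        exact h3
      rw [Finset.mem_Icc, hk']
      omega
    · intro k _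
      rcases (G2.filter (fun p : ℤ × ℤ => p.1 * p.2 / a = k)).eq_empty_or_nonempty with he | ⟨p0, hp0⟩
      · rw [he, Finset.card_empty]; exact Nat.zero_le _
      have hpr : ∀ p ∈ G2.filter (fun p : ℤ × ℤ => p.1 * p.2 / a = k), p.1 * p.2 = a * k := by
        intro p hp
        rw [Finset.mem_filter, hG2, Finset.mem_filter] at hp
        obtain ⟨-, -, e3⟩ := hG p hp.1.1
        rw [← hp.2]
        exact (Int.mul_ediv_cancel' e3).symm
      have hp0' := hp0
      rw [Finset.mem_filter, hG2, Finset.mem_filter] at hp0'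
      have hak0 : a * k ≠ 0 := by
        rw [← hpr p0 hp0]
        exact mul_ne_zero hp0'.1.2.1 hp0'.1.2.2
      have hakH : (a * k).natAbs ≤ 4 * H ^ 2 := by
        rw [← hpr p0 hp0]
        exact hprod p0 hp0'.1.1
      have hτ := hK (a * k).natAbs (by omega) hakH
      have hinj : Set.InjOn Prod.fst
          (G2.filter (fun p : ℤ × ℤ => p.1 * p.2 / a = k) : Set (ℤ × ℤ)) := by
        intro p hp q hq hpq
        have e1 := hpr p (Finset.mem_coe.mp hp)
        have e2 := hpr q (Finset.mem_coe.mp hq)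
        rw [Finset.mem_coe, Finset.mem_filter, hG2, Finset.mem_filter] at hp
        refine Prod.ext hpq ?_
        have e3 : p.1 * p.2 = p.1 * q.2 := by rw [e1, hpq, e2]
        exact mul_left_cancel₀ hp.1.2.1 e3
      rw [← Finset.card_image_of_injOn hinj]
      calc ((G2.filter (fun p : ℤ × ℤ => p.1 * p.2 / a = k)).image Prod.fst).card
          ≤ (((a * k).natAbs.divisors.image (fun n : ℕ => (n : ℤ))) ∪
              ((a * k).natAbs.divisors.image (fun n : ℕ => -(n : ℤ)))).card := by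
            apply Finset.card_le_card
            intro x hx
            rw [Finset.mem_image] at hx
            obtain ⟨p, hp, rfl⟩ := hx
            have e1 := hpr p hp
            have hd : p.1.natAbs ∣ (a * k).natAbs := by
              rw [← e1, Int.natAbs_mul]
              exact dvd_mul_right _ _
            have hd' : p.1.natAbs ∈ (a * k).natAbs.divisors :=
              Nat.mem_divisors.mpr ⟨hd, by omega⟩
            rw [Finset.mem_union, Finset.mem_image, Finset.mem_image]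
            rcases Int.natAbs_eq p.1 with e | e
            · exact Or.inl ⟨_, hd', e.symm⟩
            · exact Or.inr ⟨_, hd', e.symm⟩
        _ ≤ tau (a * k).natAbs + tau (a * k).natAbs :=
            (Finset.card_union_le _ _).trans (Nat.add_le_add Finset.card_image_le
              Finset.card_image_le)
        _ ≤ 2 * K := by omega
  have hIL : (Finset.Icc (-(L : ℤ)) L).card = 2 * L + 1 := by
    rw [Int.card_Icc]
    omega
  rw [hIL] at h2
  have h3 : G.card ≤ G0.card + G1.card + G2.card :=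
    (Finset.card_le_card hsub).trans ((Finset.card_union_le _ _).trans
      (Nat.add_le_add_right (Finset.card_union_le _ _) _))
  calc G.card ≤ G0.card + G1.card + G2.card := h3
    _ ≤ (4 * H + 1) + (4 * H + 1) + 2 * K * (2 * L + 1) := by omega
    _ = 2 * (4 * H + 1) + (2 * L + 1) * (2 * K) := by ring

/-- The number of `b` with `a ∣ b² - P`. -/
lemma c_roots (H : ℕ) (a : ℤ) (ha : a ≠ 0) (P : ℤ) (K : ℕ)
    (hK : ∀ t : ℕ, t ≠ 0 → t ≤ 4 * H ^ 2 → tau t ≤ K) (F : Finset ℤ)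
    (hF : ∀ b ∈ F, b.natAbs ≤ H ∧ a ∣ b ^ 2 - P) :
    F.card ^ 2 ≤ 2 * (4 * H + 1) + (2 * (4 * H ^ 2 / a.natAbs) + 1) * (2 * K) := by
  classical
  have hinj : Function.Injective (fun p : ℤ × ℤ => (p.1 - p.2, p.1 + p.2)) := by
    intro p q hpq
    have h1 : p.1 - p.2 = q.1 - q.2 := congrArg Prod.fst hpq
    have h2 : p.1 + p.2 = q.1 + q.2 := congrArg Prod.snd hpq
    exact Prod.ext (by linarith) (by linarith)
  have h1 : F.card ^ 2 = ((F ×ˢ F).image (fun p : ℤ × ℤ => (p.1 - p.2, p.1 + p.2))).card := by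
    rw [Finset.card_image_of_injective _ hinj, Finset.card_product, sq]
  rw [h1]
  apply c_pairs H a ha K hK
  intro x hx
  rw [Finset.mem_image] at hx
  obtain ⟨p, hp, rfl⟩ := hx
  rw [Finset.mem_product] at hp
  obtain ⟨e1, e2⟩ := hF _ hp.1
  obtain ⟨e3, e4⟩ := hF _ hp.2
  refine ⟨?_, ?_, ?_⟩
  · change (p.1 - p.2).natAbs ≤ 2 * H
    omega
  · change (p.1 + p.2).natAbs ≤ 2 * H
    omega
  · change a ∣ (p.1 - p.2) * (p.1 + p.2)
    have h2 := dvd_sub e2 e4
    have h3 : (p.1 - p.2) * (p.1 + p.2) = p.1 ^ 2 - P - (p.2 ^ 2 - P) := by ring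
    rw [h3]
    exact h2

/-- `P = b² - 3ac` -/
def cP (v : Fin 4 → ℤ) : ℤ := v 2 ^ 2 - 3 * v 3 * v 1

/-- `U = 2b³ - 9abc + 27a²d` -/
def cU (v : Fin 4 → ℤ) : ℤ := 2 * v 2 ^ 3 - 9 * v 3 * v 2 * v 1 + 27 * v 3 ^ 2 * v 0

/-- the discriminant -/
def cDisc (a : Fin 4 → ℤ) : ℤ := a 2 ^ 2 * a 1 ^ 2 - 4 * a 3 * a 1 ^ 3 - 4 * a 2 ^ 3 * a 0
      - 27 * a 3 ^ 2 * a 0 ^ 2 + 18 * a 3 * a 2 * a 1 * a 0

lemma c_identity (v : Fin 4 → ℤ) (y : ℤ) (h : y ^ 2 = cDisc v) :
    cU v ^ 2 + 27 * (v 3 * y) ^ 2 = 4 * cP v ^ 3 := by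
  have h1 : (v 3 * y) ^ 2 = v 3 ^ 2 * y ^ 2 := by ring
  rw [h1, h]
  unfold cU cP cDisc
  ring

lemma c_P_pos (v : Fin 4 → ℤ) (y : ℤ) (h : y ^ 2 = cDisc v) (hy : y ≠ 0) (h3 : v 3 ≠ 0) :
    0 < cP v := by
  have h1 := c_identity v y h
  have h2 : 0 < (v 3 * y) ^ 2 := by
    have := mul_ne_zero h3 hy
    positivity
  have h4 : 0 < cP v ^ 3 := by nlinarith [sq_nonneg (cU v)]
  by_contra hneg
  push Not at hneg
  have h5 : cP v ^ 3 ≤ 0 := by
    have h6 : cP v ^ 3 = cP v * cP v ^ 2 := by ring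
    rw [h6]
    exact mul_nonpos_of_nonpos_of_nonneg hneg (sq_nonneg _)
  omega

lemma c_P_le (H : ℕ) (v : Fin 4 → ℤ) (hv : ∀ i, (v i).natAbs ≤ H) : (cP v) ≤ 4 * (H : ℤ) ^ 2 := by
  have hb : ∀ i, |v i| ≤ (H : ℤ) := by
    intro i
    have := hv i
    rw [Int.abs_eq_natAbs]
    exact_mod_cast this
  have h2 : v 2 ^ 2 ≤ (H : ℤ) ^ 2 := by
    rw [← sq_abs]
    exact pow_le_pow_left₀ (abs_nonneg _) (hb 2) 2
  have h3 : |v 3 * v 1| ≤ (H : ℤ) * H := by
    rw [abs_mul]
    exact mul_le_mul (hb 3) (hb 1) (abs_nonneg _) (by positivity)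
  have h4 := neg_abs_le (v 3 * v 1)
  unfold cP
  nlinarith

end Pool.Agent.Helper12.VW
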