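import Pool.Agent.Helper87.VW.Sums
import Pool.Agent.Helper87.Camp.Thue3

/-!
Representations by `x² + 3y²` and by `U² + 27V²`.
-/

set_option autoImplicit false

namespace Pool.Agent.Helper12.VW

open Finset Pool.Agent.Helper10 Pool.Agent.Helper87.Camp

lemma r_coprime_three (N : ℕ) (hN : 0 < N) (h3 : ¬ 3 ∣ N) (F : Finset (ℕ × ℕ))
    (hF : ∀ p ∈ F, Nat.Coprime p.1 p.2 ∧ p.1 ^ 2 + 3 * p.2 ^ 2 = N) : F.card ≤ tau N ^ 2 := by
  have hNZ : ∀ p ∈ F, (p.1 : ℤ) ^ 2 + 3 * (p.2 : ℤ) ^ 2 = N := by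
    intro p hp
    exact_mod_cast (hF p hp).2
  have h3Z : IsCoprime (3 : ℤ) (N : ℤ) := by
    have : Nat.Coprime 3 N := (Nat.Prime.coprime_iff_not_dvd Nat.prime_three).mpr h3
    exact_mod_cast Nat.isCoprime_iff_coprime.mpr this
  have key : F.card ≤ tau N ^ 2 * 1 := by
    apply fiber_bound 2 (by norm_num) N hN.ne' 1 3
    · intro p hp
      have hc : IsCoprime (p.1 : ℤ) (p.2 : ℤ) := Nat.isCoprime_iff_coprime.mpr (hF p hp).1
      have hN' := hNZ p hp
      have h1N : IsCoprime (p.1 : ℤ) (N : ℤ) := by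
        have h3p : IsCoprime (p.1 : ℤ) 3 := by
          rw [← hN'] at h3Z
          -- a common divisor of `p.1` and 3 divides `N`
          obtain ⟨u, v, huv⟩ := h3Z
          exact ⟨v * p.1, u + v * (p.2 : ℤ) ^ 2, by linear_combination huv⟩
        have h2 : IsCoprime (p.1 : ℤ) (3 * (p.2 : ℤ) ^ 2) := h3p.mul_right (hc.pow_right)
        rw [← hN']
        obtain ⟨u, v, huv⟩ := h2
        exact ⟨u - v * p.1, v, by linear_combination huv⟩
      have h2N : IsCoprime (p.2 : ℤ) (N : ℤ) := by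
        have h2 : IsCoprime (p.2 : ℤ) ((p.1 : ℤ) ^ 2) := hc.symm.pow_right
        rw [← hN']
        obtain ⟨u, v, huv⟩ := h2
        exact ⟨u - 3 * v * p.2, v, by linear_combination huv⟩
      refine ⟨?_, ?_, ?_⟩
      · rw [one_mul, hN']
      · rw [one_mul]; exact h1N.pow_left
      · exact IsCoprime.mul_left h3Z h2N.pow_left
    · intro G hG hd
      rw [Finset.card_le_one]
      intro p hp q hq
      have hp' := hG hp
      have hq' := hG hq
      have e1 := hNZ p hp'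
      have e2 := hNZ q hq'
      have hD := hd p hp q hq
      have hD0 : (p.1 : ℤ) * q.2 - (q.1 : ℤ) * p.2 = 0 := by
        by_contra hne
        have h1 : (N : ℤ) ≤ |(p.1 : ℤ) * q.2 - (q.1 : ℤ) * p.2| :=
          Int.le_of_dvd (abs_pos.mpr hne) ((dvd_abs _ _).mpr hD)
        have h2 : (N : ℤ) ^ 2 ≤ ((p.1 : ℤ) * q.2 - (q.1 : ℤ) * p.2) ^ 2 := by
          rw [← sq_abs ((p.1 : ℤ) * q.2 - (q.1 : ℤ) * p.2)]
          exact pow_le_pow_left₀ (by positivity) h1 2
        have h3 : (N : ℤ) ^ 2 = ((p.1 : ℤ) * q.1 + 3 * (p.2 : ℤ) * q.2) ^ 2 +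
            3 * ((p.1 : ℤ) * q.2 - (q.1 : ℤ) * p.2) ^ 2 := by
          have : (N : ℤ) ^ 2 = ((p.1 : ℤ) ^ 2 + 3 * (p.2 : ℤ) ^ 2) *
              ((q.1 : ℤ) ^ 2 + 3 * (q.2 : ℤ) ^ 2) := by rw [e1, e2, sq]
          rw [this]; ring
        have h4 : (0 : ℤ) < (N : ℤ) ^ 2 := by positivity
        nlinarith [sq_nonneg ((p.1 : ℤ) * q.1 + 3 * (p.2 : ℤ) * q.2)]
      have hp1 : 0 < p.1 := by
        rcases Nat.eq_zero_or_pos p.1 with h0 | h0
        · exfalso
          apply h3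
          have := (hF p hp').2
          rw [h0] at this
          rw [← this]
          exact ⟨p.2 ^ 2, by ring⟩
        · exact h0
      have heq : p.1 * q.2 = q.1 * p.2 := by
        have : (p.1 : ℤ) * q.2 = (q.1 : ℤ) * p.2 := by linarith
        exact_mod_cast this
      obtain ⟨h6, h7⟩ := ratio_eq hp1 (hF p hp').1 (hF q hq').1 heq
      exact Prod.ext h6 h7
  simpa using key

lemma r_coprime (N : ℕ) (hN : 0 < N) (F : Finset (ℕ × ℕ))
    (hF : ∀ p ∈ F, Nat.Coprime p.1 p.2 ∧ p.1 ^ 2 + 3 * p.2 ^ 2 = N) : F.card ≤ tau N ^ 2 := by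
  classical
  by_cases h3 : 3 ∣ N
  · obtain ⟨M, rfl⟩ := h3
    rcases F.eq_empty_or_nonempty with he | ⟨p0, hp0⟩
    · rw [he, Finset.card_empty]; exact Nat.zero_le _
    have hdiv : ∀ p ∈ F, 3 ∣ p.1 := by
      intro p hp
      have h1 := (hF p hp).2
      have h2 : 3 ∣ p.1 ^ 2 := by
        have : 3 ∣ p.1 ^ 2 + 3 * p.2 ^ 2 := by rw [h1]; exact dvd_mul_right _ _
        exact (Nat.dvd_add_left (dvd_mul_right 3 (p.2 ^ 2))).mp this
      exact Nat.prime_three.dvd_of_dvd_pow h2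
    have hM3 : ¬ 3 ∣ M := by
      rintro ⟨K, rfl⟩
      obtain ⟨t, ht⟩ := hdiv p0 hp0
      have h1 := (hF p0 hp0).2
      rw [ht] at h1
      have h2 : 3 ∣ p0.2 ^ 2 := ⟨K - t ^ 2, by
        have h3 : p0.2 ^ 2 + 3 * t ^ 2 = 3 * K := by nlinarith
        have h4 : t ^ 2 ≤ K := by nlinarith [Nat.zero_le (p0.2 ^ 2)]
        rw [Nat.mul_sub]; omega⟩
      have h3 : 3 ∣ p0.2 := Nat.prime_three.dvd_of_dvd_pow h2
      have h4 : 3 ∣ Nat.gcd p0.1 p0.2 := Nat.dvd_gcd (hdiv p0 hp0) h3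
      rw [(hF p0 hp0).1] at h4
      exact absurd h4 (by norm_num)
    have hinj : Set.InjOn (fun p : ℕ × ℕ => (p.2, p.1 / 3)) (F : Set (ℕ × ℕ)) := by
      intro p hp q hq hpq
      have h1 : p.2 = q.2 := congrArg Prod.fst hpq
      have h2 : p.1 / 3 = q.1 / 3 := congrArg Prod.snd hpq
      have h3 := hdiv p (Finset.mem_coe.mp hp)
      have h4 := hdiv q (Finset.mem_coe.mp hq)
      exact Prod.ext (by omega) h1
    rw [← Finset.card_image_of_injOn hinj]
    have h5 : (F.image (fun p : ℕ × ℕ => (p.2, p.1 / 3))).card ≤ tau M ^ 2 := by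
      apply r_coprime_three M (by omega) hM3
      intro x hx
      rw [Finset.mem_image] at hx
      obtain ⟨p, hp, rfl⟩ := hx
      obtain ⟨t, ht⟩ := hdiv p hp
      have h1 := hF p hp
      have h2 : p.1 / 3 = t := by omega
      change Nat.Coprime p.2 (p.1 / 3) ∧ p.2 ^ 2 + 3 * (p.1 / 3) ^ 2 = M
      rw [h2]
      refine ⟨?_, ?_⟩
      · have h3 := h1.1
        rw [ht] at h3
        exact (Nat.Coprime.coprime_mul_left h3).symm
      · have h3 := h1.2
        rw [ht] at h3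
        nlinarith
    refine h5.trans (Nat.pow_le_pow_left (tau_mono hN.ne' (dvd_mul_left M 3)) 2)
  · exact r_coprime_three N hN h3 F hF

lemma r_all (N : ℕ) (hN : 0 < N) (F : Finset (ℕ × ℕ))
    (hF : ∀ p ∈ F, p.1 ^ 2 + 3 * p.2 ^ 2 = N) : F.card ≤ tau N ^ 3 := by
  classical
  have hg : ∀ p ∈ F, Nat.gcd p.1 p.2 ^ 2 ∣ N := by
    intro p hp
    rw [← hF p hp]
    apply dvd_add
    · exact pow_dvd_pow_of_dvd (Nat.gcd_dvd_left _ _) 2
    · exact (pow_dvd_pow_of_dvd (Nat.gcd_dvd_right _ _) 2).mul_left _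
  have hmap : ∀ p ∈ F, Nat.gcd p.1 p.2 ∈ N.divisors := by
    intro p hp
    rw [Nat.mem_divisors]
    exact ⟨(dvd_pow_self _ two_ne_zero).trans (hg p hp), hN.ne'⟩
  have hfib : ∀ g ∈ N.divisors, (F.filter (fun p => Nat.gcd p.1 p.2 = g)).card ≤ tau N ^ 2 := by
    intro g hgN
    rcases (F.filter (fun p => Nat.gcd p.1 p.2 = g)).eq_empty_or_nonempty with he | ⟨p0, hp0⟩
    · rw [he, Finset.card_empty]; exact Nat.zero_le _
    have hg0 : 0 < g := Nat.pos_of_mem_divisors hgN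
    rw [Finset.mem_filter] at hp0
    obtain ⟨M, hM⟩ : g ^ 2 ∣ N := by
      have := hg p0 hp0.1
      rwa [hp0.2] at this
    have hM0 : 0 < M := by
      rcases Nat.eq_zero_or_pos M with h0 | h0
      · rw [h0, mul_zero] at hM; omega
      · exact h0
    have hdv : ∀ p ∈ F.filter (fun p => Nat.gcd p.1 p.2 = g), g ∣ p.1 ∧ g ∣ p.2 := by
      intro p hp
      rw [Finset.mem_filter] at hp
      rw [← hp.2]
      exact ⟨Nat.gcd_dvd_left _ _, Nat.gcd_dvd_right _ _⟩
    have hinj : Set.InjOn (fun p : ℕ × ℕ => (p.1 / g, p.2 / g))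
        (F.filter (fun p => Nat.gcd p.1 p.2 = g) : Set (ℕ × ℕ)) := by
      intro p hp q hq hpq
      obtain ⟨a1, a2⟩ := hdv p (Finset.mem_coe.mp hp)
      obtain ⟨b1, b2⟩ := hdv q (Finset.mem_coe.mp hq)
      have i1 : p.1 / g = q.1 / g := congrArg Prod.fst hpq
      have i2 : p.2 / g = q.2 / g := congrArg Prod.snd hpq
      apply Prod.ext
      · rw [← Nat.div_mul_cancel a1, ← Nat.div_mul_cancel b1, i1]
      · rw [← Nat.div_mul_cancel a2, ← Nat.div_mul_cancel b2, i2]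
    rw [← Finset.card_image_of_injOn hinj]
    have h5 : ((F.filter (fun p => Nat.gcd p.1 p.2 = g)).image
        (fun p : ℕ × ℕ => (p.1 / g, p.2 / g))).card ≤ tau M ^ 2 := by
      apply r_coprime M hM0
      intro x hx
      rw [Finset.mem_image] at hx
      obtain ⟨p, hp, rfl⟩ := hx
      obtain ⟨a1, a2⟩ := hdv p hp
      rw [Finset.mem_filter] at hp
      refine ⟨?_, ?_⟩
      · have := Nat.coprime_div_gcd_div_gcd (m := p.1) (n := p.2) (by rw [hp.2]; exact hg0)
        rw [hp.2] at this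
        exact this
      · change (p.1 / g) ^ 2 + 3 * (p.2 / g) ^ 2 = M
        obtain ⟨y1, hy1⟩ := a1
        obtain ⟨y2, hy2⟩ := a2
        rw [hy1, hy2, Nat.mul_div_cancel_left _ hg0, Nat.mul_div_cancel_left _ hg0]
        have h6 := hF p hp.1
        rw [hy1, hy2, hM] at h6
        have h7 : g ^ 2 * (y1 ^ 2 + 3 * y2 ^ 2) = g ^ 2 * M := by rw [← h6]; ring
        exact Nat.eq_of_mul_eq_mul_left (pow_pos hg0 2) h7
    refine h5.trans (Nat.pow_le_pow_left (tau_mono hN.ne' ?_) 2)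
    rw [hM]
    exact dvd_mul_left _ _
  have h1 := Finset.card_le_mul_card_image_of_maps_to hmap _ hfib
  calc F.card ≤ tau N ^ 2 * N.divisors.card := h1
    _ = tau N ^ 3 := by
        change tau N ^ 2 * tau N = _
        rw [← pow_succ]

/-- Integral representations by `U² + 27 V²`. -/
lemma r_int (N : ℕ) (hN : 0 < N) (F : Finset (ℤ × ℤ))
    (hF : ∀ p ∈ F, p.1 ^ 2 + 27 * p.2 ^ 2 = (N : ℤ)) : F.card ≤ 4 * tau N ^ 3 := by
  classical
  set f : ℤ × ℤ → ℕ × ℕ := fun p => (p.1.natAbs, 3 * p.2.natAbs) with hf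
  have h1 : (F.image f).card ≤ tau N ^ 3 := by
    apply r_all N hN
    intro x hx
    rw [Finset.mem_image] at hx
    obtain ⟨p, hp, rfl⟩ := hx
    change p.1.natAbs ^ 2 + 3 * (3 * p.2.natAbs) ^ 2 = N
    have h2 := hF p hp
    have h3 : ((p.1.natAbs ^ 2 + 3 * (3 * p.2.natAbs) ^ 2 : ℕ) : ℤ) = N := by
      push_cast
      rw [← h2, sq_abs, mul_pow, sq_abs]
      ring
    exact_mod_cast h3
  have h2 : F.card ≤ 4 * (F.image f).card := by
    apply Finset.card_le_mul_card_image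
    rintro ⟨u, v⟩ _
    calc (F.filter (fun p => f p = (u, v))).card
        ≤ (({(u : ℤ), -(u : ℤ)} : Finset ℤ) ×ˢ
            ({((v / 3 : ℕ) : ℤ), -((v / 3 : ℕ) : ℤ)} : Finset ℤ)).card := by
          apply Finset.card_le_card
          intro p hp
          rw [Finset.mem_filter] at hp
          have i1 : p.1.natAbs = u := congrArg Prod.fst hp.2
          have i2 : 3 * p.2.natAbs = v := congrArg Prod.snd hp.2
          rw [Finset.mem_product, Finset.mem_insert, Finset.mem_singleton, Finset.mem_insert,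
            Finset.mem_singleton]
          constructor <;> omega
      _ ≤ 2 * 2 := by
          rw [Finset.card_product]
          exact Nat.mul_le_mul Finset.card_le_two Finset.card_le_two
      _ = 4 := by norm_num
  exact h2.trans (Nat.mul_le_mul_left 4 h1)

end Pool.Agent.Helper12.VW
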